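import Pool.Agent.Helper19.V4.Defs

/-!
# Theorem W, STEP A (MP_b6b996_nt): from smooth sums to sharp dyadic sums

If the smooth sums `∑ a(n) (n/M) e^{-n/M} e(n x)` are at most `B` for all `x`, then the sharp sums
`∑_{M < n ≤ 2M} a(n) e(n x)` are at most `8 (1 + log M) B`.
-/

set_option autoImplicit false

namespace Pool.Agent.Helper88.WS

open Finset MeasureTheory
open Pool.Helper19.V4 (ex norm_ex ex_add ex_zero ex_int ex_neg)

/-- the smooth weight -/
noncomputable def wt (M n : ℕ) : ℝ := n / M * Real.exp (-(n / M))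

lemma ex_nat_mul (n : ℕ) (y : ℝ) : ex (n * y) = ex y ^ n := by
  induction n with
  | zero => simp [ex_zero]
  | succ k ih => rw [pow_succ, ← ih, ← ex_add]; congr 1; push_cast; ring

lemma geom_tel (z : ℂ) (A k : ℕ) : (z - 1) * ∑ n ∈ Ioc A (A + k), z ^ n = z ^ (A + k + 1) - z ^ (A + 1) := by
  induction k with
  | zero => simp
  | succ k ih =>
    rw [← add_assoc, Finset.sum_Ioc_succ_top (by omega), mul_add, ih]
    ring

lemma norm_ex_sub_one {y : ℝ} (h1 : |y| ≤ 1 / 2) : 4 * |y| ≤ ‖ex y - 1‖ := by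
  have h2 : ‖ex y - 1‖ = ‖2 * Real.sin (2 * Real.pi * y / 2)‖ := by
    rw [ex, mul_comm ((2 * Real.pi * y : ℝ) : ℂ) Complex.I]
    exact Complex.norm_exp_I_mul_ofReal_sub_one (2 * Real.pi * y)
  rw [h2, norm_mul, Real.norm_eq_abs, Real.norm_eq_abs]
  have h3 : (2 * Real.pi * y / 2 : ℝ) = Real.pi * y := by ring
  rw [h3, abs_of_pos (by norm_num : (0 : ℝ) < 2)]
  have h4 : 2 * |y| ≤ |Real.sin (Real.pi * y)| := by
    have e1 : |Real.sin (Real.pi * y)| = Real.sin (Real.pi * |y|) := by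
      rcases le_total 0 y with hy | hy
      · rw [abs_of_nonneg hy, abs_of_nonneg]
        apply Real.sin_nonneg_of_nonneg_of_le_pi
        · positivity
        · rw [abs_of_nonneg hy] at h1
          nlinarith [Real.pi_pos]
      · rw [abs_of_nonpos hy, abs_of_nonpos]
        · rw [mul_neg, Real.sin_neg]
        · have e2 : Real.pi * y = -(Real.pi * -y) := by ring
          rw [e2, Real.sin_neg]
          have e3 : 0 ≤ Real.sin (Real.pi * -y) := by
            apply Real.sin_nonneg_of_nonneg_of_le_pi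
            · have : 0 ≤ -y := by linarith
              positivity
            · rw [abs_of_nonpos hy] at h1
              nlinarith [Real.pi_pos]
          linarith
    rw [e1]
    have e4 := Real.mul_le_sin (x := Real.pi * |y|) (by positivity) (by nlinarith [Real.pi_pos, abs_nonneg y])
    have e5 : 2 / Real.pi * (Real.pi * |y|) = 2 * |y| := by
      field_simp
    linarith
  linarith

lemma geom_le {y : ℝ} (h1 : |y| ≤ 1 / 2) (h0 : y ≠ 0) (A k : ℕ) :
    ‖∑ n ∈ Ioc A (A + k), ex (n * y)‖ ≤ 1 / (2 * |y|) := by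
  have h2 := geom_tel (ex y) A k
  have h3 : ∑ n ∈ Ioc A (A + k), ex (n * y) = ∑ n ∈ Ioc A (A + k), ex y ^ n :=
    sum_congr rfl fun n _ => ex_nat_mul n y
  rw [h3]
  have h4 : ‖ex y - 1‖ * ‖∑ n ∈ Ioc A (A + k), ex y ^ n‖ ≤ 2 := by
    rw [← norm_mul, h2]
    refine (norm_sub_le _ _).trans ?_
    rw [norm_pow, norm_pow, norm_ex, one_pow, one_pow]
    norm_num
  have h5 := norm_ex_sub_one h1
  have h6 : 0 < |y| := abs_pos.2 h0
  rw [le_div_iff₀ (by positivity)]
  have h7 : 4 * |y| * ‖∑ n ∈ Ioc A (A + k), ex y ^ n‖ ≤ 2 :=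
    (mul_le_mul_of_nonneg_right h5 (norm_nonneg _)).trans h4
  linarith

/-- partial summation with increasing weights -/
lemma abel_mono (A : ℕ) (b : ℕ → ℝ) (z : ℕ → ℂ) {S : ℝ} (K : ℕ)
    (hb : ∀ n, A + 1 ≤ n → n < A + 1 + K → b n ≤ b (n + 1))
    (hS : ∀ k, k ≤ K + 1 → ‖∑ n ∈ Ioc A (A + k), z n‖ ≤ S) :
    ‖∑ n ∈ Ioc A (A + 1 + K), (b n : ℂ) * z n - b (A + 1 + K) * ∑ n ∈ Ioc A (A + 1 + K), z n‖ ≤
      (b (A + 1 + K) - b (A + 1)) * S := by
  induction K with
  | zero =>
    simp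
  | succ K ih =>
    have h1 := ih (fun n h h' => hb n h (by omega)) (fun k hk => hS k (by omega))
    have e1 : A + 1 + (K + 1) = A + 1 + K + 1 := by ring
    rw [e1, Finset.sum_Ioc_succ_top (by omega), Finset.sum_Ioc_succ_top (by omega)]
    have h2 := hb (A + 1 + K) (by omega) (by omega)
    have h3 : ‖∑ n ∈ Ioc A (A + 1 + K), z n‖ ≤ S := by
      have := hS (K + 1) (by omega)
      rwa [show A + (K + 1) = A + 1 + K by ring] at this
    have e2 : ∑ n ∈ Ioc A (A + 1 + K), (b n : ℂ) * z n + b (A + 1 + K + 1) * z (A + 1 + K + 1) -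
        b (A + 1 + K + 1) * (∑ n ∈ Ioc A (A + 1 + K), z n + z (A + 1 + K + 1)) =
        (∑ n ∈ Ioc A (A + 1 + K), (b n : ℂ) * z n - b (A + 1 + K) * ∑ n ∈ Ioc A (A + 1 + K), z n) -
        ((b (A + 1 + K + 1) - b (A + 1 + K) : ℝ) : ℂ) * ∑ n ∈ Ioc A (A + 1 + K), z n := by
      push_cast
      ring
    rw [e2]
    refine (norm_sub_le _ _).trans ?_
    rw [norm_mul, Complex.norm_real, Real.norm_of_nonneg (by linarith)]
    have h4 : (b (A + 1 + K + 1) - b (A + 1 + K)) * ‖∑ n ∈ Ioc A (A + 1 + K), z n‖ ≤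
        (b (A + 1 + K + 1) - b (A + 1 + K)) * S := mul_le_mul_of_nonneg_left h3 (by linarith)
    linarith

/-- the inverse weight is increasing on `[M, ∞)` -/
lemma inv_wt_mono {M n : ℕ} (hM : 1 ≤ M) (hn : M ≤ n) : 1 / wt M n ≤ 1 / wt M (n + 1) := by
  have hM0 : (0 : ℝ) < M := by exact_mod_cast hM
  have hn0 : (0 : ℝ) < n := by exact_mod_cast (by omega : 0 < n)
  have hnM : (M : ℝ) ≤ n := by exact_mod_cast hn
  unfold wt
  apply one_div_le_one_div_of_le (by positivity)
  have h1 : (((n + 1 : ℕ) : ℝ) / M : ℝ) = n / M + 1 / M := by push_cast; ring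
  rw [h1]
  have h2 : Real.exp (-((n : ℝ) / M + 1 / M)) = Real.exp (-((n : ℝ) / M)) * Real.exp (-(1 / M)) := by
    rw [← Real.exp_add]; congr 1; ring
  rw [h2]
  have h3 : (1 + 1 / (M : ℝ)) * Real.exp (-(1 / M)) ≤ 1 := by
    have h4 : 1 + 1 / (M : ℝ) ≤ Real.exp (1 / M) := by
      have := Real.add_one_le_exp (1 / (M : ℝ)); linarith
    calc (1 + 1 / (M : ℝ)) * Real.exp (-(1 / M)) ≤ Real.exp (1 / M) * Real.exp (-(1 / M)) :=
          mul_le_mul_of_nonneg_right h4 (Real.exp_pos _).le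
      _ = 1 := by rw [← Real.exp_add]; simp
  have h5 : (n : ℝ) / M + 1 / M ≤ n / M * (1 + 1 / M) := by
    have : (1 : ℝ) / M ≤ n / M * (1 / M) := by
      have h6 : (1 : ℝ) ≤ n / M := by rw [le_div_iff₀ hM0]; linarith
      have h7 : (0 : ℝ) ≤ 1 / M := by positivity
      nlinarith
    linarith
  have h8 : (0 : ℝ) < Real.exp (-(n / M)) := Real.exp_pos _
  have h9 : (0 : ℝ) < Real.exp (-(1 / M)) := Real.exp_pos _
  have h10 : (0 : ℝ) < n / M := by positivity
  calc (n / M + 1 / M) * (Real.exp (-(n / M)) * Real.exp (-(1 / M)))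
      ≤ (n / M * (1 + 1 / M)) * (Real.exp (-(n / M)) * Real.exp (-(1 / M))) :=
        mul_le_mul_of_nonneg_right h5 (by positivity)
    _ = n / M * Real.exp (-(n / M)) * ((1 + 1 / M) * Real.exp (-(1 / M))) := by ring
    _ ≤ n / M * Real.exp (-(n / M)) * 1 := mul_le_mul_of_nonneg_left h3 (by positivity)
    _ = _ := by ring

lemma inv_wt_two {M : ℕ} (hM : 1 ≤ M) : 1 / wt M (2 * M) ≤ 4 := by
  have hM0 : (0 : ℝ) < M := by exact_mod_cast hM
  unfold wt
  have h1 : (((2 * M : ℕ) : ℝ) / M : ℝ) = 2 := by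
    push_cast; field_simp
  rw [h1, div_le_iff₀ (by positivity)]
  have h2 : Real.exp 2 ≤ 8 := by
    have h3 := Real.exp_one_lt_d9
    have h4 : Real.exp 2 = Real.exp 1 * Real.exp 1 := by rw [← Real.exp_add]; norm_num
    rw [h4]
    nlinarith [Real.exp_pos 1]
  have h5 : Real.exp 2 * Real.exp (-2) = 1 := by rw [← Real.exp_add]; simp
  nlinarith [Real.exp_pos (-2), Real.exp_pos 2]

lemma wt_pos {M n : ℕ} (hM : 1 ≤ M) (hn : 1 ≤ n) : 0 < wt M n := by
  have hM0 : (0 : ℝ) < M := by exact_mod_cast hM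
  have hn0 : (0 : ℝ) < n := by exact_mod_cast hn
  unfold wt
  positivity

/-- the kernel -/
noncomputable def Dk (M : ℕ) (y : ℝ) : ℂ := ∑ m ∈ Ioc M (2 * M), ((1 / wt M m : ℝ) : ℂ) * ex (m * y)

lemma Dk_le {M : ℕ} (hM : 1 ≤ M) {y S : ℝ} (hS : ∀ k, k ≤ M → ‖∑ n ∈ Ioc M (M + k), ex (n * y)‖ ≤ S) :
    ‖Dk M y‖ ≤ 8 * S := by
  have hS0 : 0 ≤ S := (norm_nonneg _).trans (hS 0 (by omega))
  obtain ⟨K, rfl⟩ : ∃ K, M = K + 1 := ⟨M - 1, by omega⟩
  have h1 := abel_mono (K + 1) (fun n => 1 / wt (K + 1) n) (fun n => ex (n * y)) (S := S) K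
    (fun n hn _ => inv_wt_mono (by omega) (by omega)) (fun k hk => hS k (by omega))
  rw [show K + 1 + 1 + K = 2 * (K + 1) by ring] at h1
  have h2 := hS (K + 1) le_rfl
  rw [show K + 1 + (K + 1) = 2 * (K + 1) by ring] at h2
  have h3 := inv_wt_two (M := K + 1) (by omega)
  have h4 : 0 < 1 / wt (K + 1) (2 * (K + 1)) := one_div_pos.2 (wt_pos (by omega) (by omega))
  have h5 : 0 < 1 / wt (K + 1) (K + 1 + 1) := one_div_pos.2 (wt_pos (by omega) (by omega))
  have h6 : ‖((1 / wt (K + 1) (2 * (K + 1)) : ℝ) : ℂ) * ∑ n ∈ Ioc (K + 1) (2 * (K + 1)), ex (n * y)‖ ≤ 4 * S := by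
    rw [norm_mul, Complex.norm_real, Real.norm_of_nonneg h4.le]
    exact mul_le_mul h3 h2 (norm_nonneg _) (by norm_num)
  have h7 : (1 / wt (K + 1) (2 * (K + 1)) - 1 / wt (K + 1) (K + 1 + 1)) * S ≤ 4 * S :=
    mul_le_mul_of_nonneg_right (by linarith) hS0
  unfold Dk
  have h8 := norm_add_le (∑ m ∈ Ioc (K + 1) (2 * (K + 1)), ((1 / wt (K + 1) m : ℝ) : ℂ) * ex (m * y) -
    ((1 / wt (K + 1) (2 * (K + 1)) : ℝ) : ℂ) * ∑ n ∈ Ioc (K + 1) (2 * (K + 1)), ex (n * y))
    (((1 / wt (K + 1) (2 * (K + 1)) : ℝ) : ℂ) * ∑ n ∈ Ioc (K + 1) (2 * (K + 1)), ex (n * y))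
  rw [sub_add_cancel] at h8
  linarith

lemma Dk_le_triv {M : ℕ} (hM : 1 ≤ M) (y : ℝ) : ‖Dk M y‖ ≤ 8 * M := by
  refine Dk_le hM fun k hk => (norm_sum_le _ _).trans ?_
  rw [sum_congr rfl fun n _ => norm_ex _]
  simp only [sum_const, Nat.card_Ioc, nsmul_eq_mul, mul_one]
  have : ((M + k - M : ℕ) : ℝ) = k := by congr 1; omega
  rw [this]
  exact_mod_cast hk

lemma Dk_le_inv {M : ℕ} (hM : 1 ≤ M) {y : ℝ} (h1 : |y| ≤ 1 / 2) (h0 : y ≠ 0) : ‖Dk M y‖ ≤ 4 / |y| := by
  have := Dk_le hM (y := y) (S := 1 / (2 * |y|)) fun k _ => geom_le h1 h0 M k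
  refine this.trans (le_of_eq ?_)
  have : |y| ≠ 0 := abs_ne_zero.2 h0
  field_simp
  norm_num

lemma ex_cont : Continuous ex := by
  unfold Pool.Helper19.V4.ex
  fun_prop

lemma Dk_cont (M : ℕ) : Continuous (Dk M) := by
  unfold Dk
  refine continuous_finsetSum _ fun m _ => ?_
  exact continuous_const.mul (ex_cont.comp (by fun_prop))

lemma int_Dk {M : ℕ} (hM : 1 ≤ M) : ∫ y in (-(1 / 2 : ℝ))..(1 / 2), ‖Dk M y‖ ≤ 8 * (1 + Real.log M) := by
  have hM0 : (0 : ℝ) < M := by exact_mod_cast hM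
  have hM1 : (1 : ℝ) ≤ M := by exact_mod_cast hM
  obtain ⟨δ, hδ⟩ : ∃ δ : ℝ, δ = 1 / (2 * M) := ⟨_, rfl⟩
  have hδ0 : 0 < δ := by rw [hδ]; positivity
  have hδ1 : δ ≤ 1 / 2 := by
    rw [hδ]
    apply one_div_le_one_div_of_le (by norm_num)
    linarith
  have hc : Continuous fun y => ‖Dk M y‖ := (Dk_cont M).norm
  have hi : ∀ a b : ℝ, IntervalIntegrable (fun y => ‖Dk M y‖) volume a b := fun a b => hc.intervalIntegrable a b
  rw [← intervalIntegral.integral_add_adjacent_intervals (hi (-(1 / 2)) (-δ)) (hi (-δ) (1 / 2)),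
    ← intervalIntegral.integral_add_adjacent_intervals (hi (-δ) δ) (hi δ (1 / 2))]
  have hmid : ∫ y in (-δ)..δ, ‖Dk M y‖ ≤ 8 := by
    have h1 : ∫ y in (-δ)..δ, ‖Dk M y‖ ≤ ∫ _ in (-δ)..δ, (8 * M : ℝ) := by
      apply intervalIntegral.integral_mono_on (by linarith) (hi _ _) (by simp)
      intro y _
      exact Dk_le_triv hM y
    rw [intervalIntegral.integral_const, smul_eq_mul] at h1
    refine h1.trans (le_of_eq ?_)
    rw [hδ]
    field_simp
    norm_num
  have hright : ∫ y in δ..(1 / 2 : ℝ), ‖Dk M y‖ ≤ 4 * Real.log M := by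
    have h0 : (0 : ℝ) ∉ Set.uIcc δ (1 / 2) := by
      rw [Set.uIcc_of_le hδ1]
      simp [hδ0]
    have h1 : ∫ y in δ..(1 / 2 : ℝ), ‖Dk M y‖ ≤ ∫ y in δ..(1 / 2 : ℝ), 4 * (1 / y) := by
      apply intervalIntegral.integral_mono_on hδ1 (hi _ _)
      · apply IntervalIntegrable.const_mul
        apply intervalIntegral.intervalIntegrable_one_div
        · intro y hy h
          exact h0 (h ▸ hy)
        · exact continuousOn_id
      · intro y hy
        have hy0 : 0 < y := lt_of_lt_of_le hδ0 hy.1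
        have := Dk_le_inv hM (y := y) (by rw [abs_of_pos hy0]; exact hy.2) hy0.ne'
        rw [abs_of_pos hy0] at this
        refine this.trans (le_of_eq ?_)
        ring
    rw [intervalIntegral.integral_const_mul, integral_one_div h0] at h1
    refine h1.trans (le_of_eq ?_)
    congr 2
    rw [hδ]
    field_simp
  have hleft : ∫ y in (-(1 / 2 : ℝ))..(-δ), ‖Dk M y‖ ≤ 4 * Real.log M := by
    have e1 : ∫ y in (-(1 / 2 : ℝ))..(-δ), ‖Dk M y‖ = ∫ y in δ..(1 / 2 : ℝ), ‖Dk M (-y)‖ := by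
      have := intervalIntegral.integral_comp_neg (a := δ) (b := 1 / 2) (fun y => ‖Dk M y‖)
      exact this.symm
    rw [e1]
    have hi' : IntervalIntegrable (fun y => ‖Dk M (-y)‖) volume δ (1 / 2) :=
      (hc.comp continuous_neg).intervalIntegrable _ _
    have h0 : (0 : ℝ) ∉ Set.uIcc δ (1 / 2) := by
      rw [Set.uIcc_of_le hδ1]
      simp [hδ0]
    have h1 : ∫ y in δ..(1 / 2 : ℝ), ‖Dk M (-y)‖ ≤ ∫ y in δ..(1 / 2 : ℝ), 4 * (1 / y) := by
      apply intervalIntegral.integral_mono_on hδ1 hi'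
      · apply IntervalIntegrable.const_mul
        apply intervalIntegral.intervalIntegrable_one_div
        · intro y hy h
          exact h0 (h ▸ hy)
        · exact continuousOn_id
      · intro y hy
        have hy0 : 0 < y := lt_of_lt_of_le hδ0 hy.1
        have := Dk_le_inv hM (y := -y) (by rw [abs_neg, abs_of_pos hy0]; exact hy.2) (by linarith)
        rw [abs_neg, abs_of_pos hy0] at this
        refine this.trans (le_of_eq ?_)
        ring
    rw [intervalIntegral.integral_const_mul, integral_one_div h0] at h1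
    refine h1.trans (le_of_eq ?_)
    congr 2
    rw [hδ]
    field_simp
  linarith

lemma int_ex (k : ℤ) : ∫ y in (-(1 / 2 : ℝ))..(1 / 2), ex (k * y) = if k = 0 then 1 else 0 := by
  by_cases hk : k = 0
  · subst hk
    simp [ex_zero]
    norm_num
  · rw [if_neg hk]
    have hk0 : (k : ℂ) ≠ 0 := by exact_mod_cast hk
    have hc : (2 * Real.pi * k * Complex.I : ℂ) ≠ 0 := by
      simp [hk0, Real.pi_ne_zero]
    have h1 : ∀ y : ℝ, ex (k * y) = Complex.exp ((2 * Real.pi * k * Complex.I) * y) := by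
      intro y
      unfold Pool.Helper19.V4.ex
      congr 1
      push_cast
      ring
    simp_rw [h1]
    rw [integral_exp_mul_complex hc]
    have h2 : Complex.exp ((2 * Real.pi * k * Complex.I) * ((1 / 2 : ℝ) : ℂ)) =
        Complex.exp ((2 * Real.pi * k * Complex.I) * ((-(1 / 2) : ℝ) : ℂ)) := by
      rw [Complex.exp_eq_exp_iff_exists_int]
      refine ⟨k, ?_⟩
      push_cast
      ring
    rw [h2]
    simp

/-- **STEP A.** -/
theorem stepA {M : ℕ} (hM : 1 ≤ M) {a : ℕ → ℂ} (ha : ∀ n, ‖a n‖ ≤ 1) {B : ℝ}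
    (hB : ∀ z : ℝ, ‖∑' n : ℕ, a n * wt M n * ex (n * z)‖ ≤ B) (x : ℝ) :
    ‖∑ n ∈ Ioc M (2 * M), a n * ex (n * x)‖ ≤ 8 * (1 + Real.log M) * B := by
  classical
  have hM0 : (0 : ℝ) < M := by exact_mod_cast hM
  have hM1 : (1 : ℝ) ≤ M := by exact_mod_cast hM
  have hB0 : 0 ≤ B := (norm_nonneg _).trans (hB 0)
  -- summability of the weights
  have hsw : Summable fun n : ℕ => wt M n := by
    have h1 : Summable fun n : ℕ => (n : ℝ) ^ 1 * Real.exp (-(1 / M)) ^ n := by
      apply summable_pow_mul_geometric_of_norm_lt_one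
      rw [Real.norm_of_nonneg (Real.exp_pos _).le, Real.exp_lt_one_iff]
      have : 0 < 1 / (M : ℝ) := by positivity
      linarith
    have h2 := h1.mul_left (1 / (M : ℝ))
    refine h2.congr fun n => ?_
    unfold wt
    rw [← Real.exp_nat_mul]
    rw [show ((n : ℝ) * -(1 / M)) = -(n / M) by ring]
    ring
  have hw0 : ∀ n, 0 ≤ wt M n := fun n => by unfold wt; positivity
  have hsum : ∀ z : ℝ, Summable fun n : ℕ => a n * wt M n * ex (n * z) := by
    intro z
    apply Summable.of_norm_bounded hsw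
    intro n
    rw [norm_mul, norm_mul, norm_ex, mul_one, Complex.norm_real, Real.norm_of_nonneg (hw0 n)]
    exact mul_le_of_le_one_left (hw0 n) (ha n)
  -- the interchange
  have hkey : HasSum (fun n : ℕ => ∫ y in (-(1 / 2 : ℝ))..(1 / 2), Dk M y * (a n * wt M n * ex (n * (x - y))))
      (∫ y in (-(1 / 2 : ℝ))..(1 / 2), Dk M y * ∑' n : ℕ, a n * wt M n * ex (n * (x - y))) := by
    apply intervalIntegral.hasSum_integral_of_dominated_convergence (fun n _ => 8 * M * wt M n)
    · intro n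
      apply Continuous.aestronglyMeasurable
      exact (Dk_cont M).mul (continuous_const.mul (ex_cont.comp (by fun_prop)))
    · intro n
      refine Filter.Eventually.of_forall fun y _ => ?_
      rw [norm_mul, norm_mul, norm_mul, norm_ex, mul_one, Complex.norm_real, Real.norm_of_nonneg (hw0 n)]
      exact mul_le_mul (Dk_le_triv hM y) (mul_le_of_le_one_left (hw0 n) (ha n)) (by have := hw0 n; positivity)
        (by positivity)
    · exact Filter.Eventually.of_forall fun y _ => hsw.mul_left _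
    · exact intervalIntegrable_const
    · refine Filter.Eventually.of_forall fun y _ => ?_
      exact (hsum (x - y)).hasSum.mul_left _
  have hterm : ∀ n : ℕ, ∫ y in (-(1 / 2 : ℝ))..(1 / 2), Dk M y * (a n * wt M n * ex (n * (x - y))) =
      if n ∈ Ioc M (2 * M) then a n * ex (n * x) else 0 := by
    intro n
    have e1 : ∀ y : ℝ, Dk M y * (a n * wt M n * ex (n * (x - y))) =
        ∑ m ∈ Ioc M (2 * M), (a n * wt M n * ex (n * x) * ((1 / wt M m : ℝ) : ℂ)) *
          ex (((m : ℤ) - (n : ℤ) : ℤ) * y) := by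
      intro y
      unfold Dk
      rw [sum_mul]
      refine sum_congr rfl fun m _ => ?_
      have e2 : ex (((m : ℤ) - (n : ℤ) : ℤ) * y) = ex (m * y) * ex (-(n * y)) := by
        rw [← ex_add]; congr 1; push_cast; ring
      have e3 : ex (n * (x - y)) = ex (n * x) * ex (-(n * y)) := by
        rw [← ex_add]; congr 1; ring
      rw [e2, e3]
      ring
    simp_rw [e1]
    rw [intervalIntegral.integral_finsetSum]
    · simp_rw [intervalIntegral.integral_const_mul, int_ex]
      by_cases hn : n ∈ Ioc M (2 * M)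
      · rw [if_pos hn, sum_eq_single_of_mem n hn]
        · rw [if_pos (by simp), mul_one]
          have h1 : wt M n ≠ 0 := (wt_pos hM (by rw [mem_Ioc] at hn; omega)).ne'
          have h2 : (wt M n : ℂ) ≠ 0 := by exact_mod_cast h1
          push_cast
          field_simp
        · intro m _ hmn
          rw [if_neg, mul_zero]
          intro h
          exact hmn (by omega)
      · rw [if_neg hn]
        refine sum_eq_zero fun m hm => ?_
        rw [if_neg, mul_zero]
        intro h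
        have : m = n := by omega
        exact hn (this ▸ hm)
    · intro m _
      exact (continuous_const.mul (ex_cont.comp (by fun_prop))).intervalIntegrable _ _
  simp_rw [hterm] at hkey
  have hfin : HasSum (fun n : ℕ => if n ∈ Ioc M (2 * M) then a n * ex (n * x) else 0)
      (∑ n ∈ Ioc M (2 * M), a n * ex (n * x)) := by
    have h : HasSum (fun n : ℕ => if n ∈ Ioc M (2 * M) then a n * ex (n * x) else 0)
        (∑ n ∈ Ioc M (2 * M), if n ∈ Ioc M (2 * M) then a n * ex (n * x) else 0) :=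
      hasSum_sum_of_ne_finset_zero fun n hn => if_neg hn
    rwa [sum_congr rfl fun n hn => if_pos hn] at h
  rw [hfin.unique hkey]
  have hle : ‖∫ y in (-(1 / 2 : ℝ))..(1 / 2), Dk M y * ∑' n : ℕ, a n * wt M n * ex (n * (x - y))‖ ≤
      ∫ y in (-(1 / 2 : ℝ))..(1 / 2), ‖Dk M y‖ * B := by
    apply intervalIntegral.norm_integral_le_of_norm_le (by norm_num)
    · refine Filter.Eventually.of_forall fun y _ => ?_
      rw [norm_mul]
      exact mul_le_mul_of_nonneg_left (hB _) (norm_nonneg _)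
    · exact ((Dk_cont M).norm.mul continuous_const).intervalIntegrable _ _
  refine hle.trans ?_
  rw [intervalIntegral.integral_mul_const]
  exact mul_le_mul_of_nonneg_right (int_Dk hM) hB0

end Pool.Agent.Helper88.WS
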