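import Mathlib

/-!
# Dirichlet polynomials: products

`DD h f X = ∑_{n ≤ X} f(n) h(n)` for completely multiplicative `h`.
-/

set_option autoImplicit false

namespace Pool.Agent.Helper88.WS

open Finset

/-- the sum of `f(n) h(n)` over `1 ≤ n ≤ X` -/
noncomputable def DD (h : ℕ → ℂ) (f : ArithmeticFunction ℂ) (X : ℕ) : ℂ := ∑ n ∈ Icc 1 X, f n * h n

lemma DD_mul {h : ℕ → ℂ} (hh : ∀ m n, 1 ≤ m → 1 ≤ n → h (m * n) = h m * h n) {f g : ArithmeticFunction ℂ} {X Y : ℕ}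
    (hf : ∀ n, f n ≠ 0 → n ≤ X) (hg : ∀ n, g n ≠ 0 → n ≤ Y) :
    DD h f X * DD h g Y = DD h (f * g) (X * Y) := by
  classical
  unfold DD
  rw [Finset.sum_mul_sum, ← Finset.sum_product']
  have hm : ∀ p ∈ Icc 1 X ×ˢ Icc 1 Y, p.1 * p.2 ∈ Icc 1 (X * Y) := by
    intro p hp
    rw [Finset.mem_product, Finset.mem_Icc, Finset.mem_Icc] at hp
    rw [Finset.mem_Icc]
    exact ⟨Nat.mul_pos hp.1.1 hp.2.1, Nat.mul_le_mul hp.1.2 hp.2.2⟩
  rw [← Finset.sum_fiberwise_of_maps_to hm]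
  refine Finset.sum_congr rfl fun n hn => ?_
  rw [Finset.mem_Icc] at hn
  rw [ArithmeticFunction.mul_apply, sum_mul]
  have e1 : ∀ p ∈ (Icc 1 X ×ˢ Icc 1 Y).filter (fun p => p.1 * p.2 = n),
      f p.1 * h p.1 * (g p.2 * h p.2) = f p.1 * g p.2 * h n := by
    intro p hp
    rw [Finset.mem_filter, Finset.mem_product, Finset.mem_Icc, Finset.mem_Icc] at hp
    rw [← hp.2, hh _ _ hp.1.1.1 hp.1.2.1]
    ring
  rw [Finset.sum_congr rfl e1]
  apply Finset.sum_subset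
  · intro p hp
    rw [Finset.mem_filter] at hp
    rw [Nat.mem_divisorsAntidiagonal]
    exact ⟨hp.2, by omega⟩
  · intro p hp hnp
    have hp' := Nat.mem_divisorsAntidiagonal.1 hp
    rw [Finset.mem_filter, Finset.mem_product, Finset.mem_Icc, Finset.mem_Icc] at hnp
    have h1 : 0 < p.1 := Nat.pos_of_ne_zero (by rintro h0; rw [h0, zero_mul] at hp'; omega)
    have h2 : 0 < p.2 := Nat.pos_of_ne_zero (by rintro h0; rw [h0, mul_zero] at hp'; omega)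
    by_contra hne
    apply hnp
    have h3 : f p.1 ≠ 0 := by
      intro h0
      apply hne
      rw [h0]
      ring
    have h4 : g p.2 ≠ 0 := by
      intro h0
      apply hne
      rw [h0]
      ring
    exact ⟨⟨⟨h1, hf _ h3⟩, ⟨h2, hg _ h4⟩⟩, hp'.1⟩

lemma supp_mul {f g : ArithmeticFunction ℂ} {X Y : ℕ}
    (hf : ∀ n, f n ≠ 0 → n ≤ X) (hg : ∀ n, g n ≠ 0 → n ≤ Y) : ∀ n, (f * g) n ≠ 0 → n ≤ X * Y := by
  intro n hn
  rw [ArithmeticFunction.mul_apply] at hn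
  obtain ⟨p, hp, hne⟩ := Finset.exists_ne_zero_of_sum_ne_zero hn
  have hp' := Nat.mem_divisorsAntidiagonal.1 hp
  rw [← hp'.1]
  exact Nat.mul_le_mul (hf _ (left_ne_zero_of_mul hne)) (hg _ (right_ne_zero_of_mul hne))

/-- lower bounds of the supports -/
lemma low_mul {f g : ArithmeticFunction ℂ} {a b : ℝ} (ha : 0 ≤ a) (hb : 0 ≤ b)
    (hf : ∀ n : ℕ, f n ≠ 0 → a ≤ n) (hg : ∀ n : ℕ, g n ≠ 0 → b ≤ n) : ∀ n : ℕ, (f * g) n ≠ 0 → a * b ≤ n := by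
  intro n hn
  rw [ArithmeticFunction.mul_apply] at hn
  obtain ⟨p, hp, hne⟩ := Finset.exists_ne_zero_of_sum_ne_zero hn
  have hp' := Nat.mem_divisorsAntidiagonal.1 hp
  rw [← hp'.1]
  push_cast
  exact mul_le_mul (hf _ (left_ne_zero_of_mul hne)) (hg _ (right_ne_zero_of_mul hne)) hb (Nat.cast_nonneg _)

lemma DD_mono {h : ℕ → ℂ} {f : ArithmeticFunction ℂ} {X Y : ℕ} (hf : ∀ n, f n ≠ 0 → n ≤ X) (hXY : X ≤ Y) :
    DD h f Y = DD h f X := by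
  unfold DD
  symm
  apply Finset.sum_subset
  · intro n hn
    rw [mem_Icc] at hn ⊢
    omega
  · intro n hn hnX
    rw [mem_Icc] at hn hnX
    by_cases h0 : f n = 0
    · rw [h0, zero_mul]
    · exact absurd ⟨hn.1, hf n h0⟩ hnX

/-- the absolute values -/
lemma abs_mul_le {f g : ArithmeticFunction ℂ} {X Y : ℕ} (hf : ∀ n, f n ≠ 0 → n ≤ X) (hg : ∀ n, g n ≠ 0 → n ≤ Y) :
    ∑ n ∈ Icc 1 (X * Y), ‖(f * g) n‖ ≤ (∑ n ∈ Icc 1 X, ‖f n‖) * ∑ n ∈ Icc 1 Y, ‖g n‖ := by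
  classical
  obtain ⟨f', hf'⟩ : ∃ f' : ArithmeticFunction ℂ, ∀ n, f' n = ((‖f n‖ : ℝ) : ℂ) :=
    ⟨⟨fun n => ((‖f n‖ : ℝ) : ℂ), by simp⟩, fun n => rfl⟩
  obtain ⟨g', hg'⟩ : ∃ g' : ArithmeticFunction ℂ, ∀ n, g' n = ((‖g n‖ : ℝ) : ℂ) :=
    ⟨⟨fun n => ((‖g n‖ : ℝ) : ℂ), by simp⟩, fun n => rfl⟩
  have h1 := DD_mul (h := fun _ => 1) (by simp) (f := f') (g := g') (X := X) (Y := Y)
    (fun n hn => hf n (by rw [hf'] at hn; simpa using hn)) (fun n hn => hg n (by rw [hg'] at hn; simpa using hn))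
  unfold DD at h1
  simp only [mul_one] at h1
  have h2 : ∀ n, ‖(f * g) n‖ ≤ ((f' * g') n).re := by
    intro n
    rw [ArithmeticFunction.mul_apply, ArithmeticFunction.mul_apply, Complex.re_sum]
    refine (norm_sum_le _ _).trans (sum_le_sum fun p _ => ?_)
    rw [norm_mul, hf', hg', ← Complex.ofReal_mul, Complex.ofReal_re]
  have h3 : ((∑ n ∈ Icc 1 X, ‖f n‖) * ∑ n ∈ Icc 1 Y, ‖g n‖ : ℝ) = (∑ n ∈ Icc 1 (X * Y), (f' * g') n).re := by
    rw [← h1]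
    have e1 : ∑ n ∈ Icc 1 X, f' n = ((∑ n ∈ Icc 1 X, ‖f n‖ : ℝ) : ℂ) := by
      push_cast
      exact sum_congr rfl fun n _ => hf' n
    have e2 : ∑ n ∈ Icc 1 Y, g' n = ((∑ n ∈ Icc 1 Y, ‖g n‖ : ℝ) : ℂ) := by
      push_cast
      exact sum_congr rfl fun n _ => hg' n
    rw [e1, e2, ← Complex.ofReal_mul, Complex.ofReal_re]
  rw [h3, Complex.re_sum]
  exact sum_le_sum fun n _ => h2 n

lemma one_supp : ∀ n : ℕ, (1 : ArithmeticFunction ℂ) n ≠ 0 → n = 1 := by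
  intro n hn
  by_contra h
  exact hn (ArithmeticFunction.one_apply_ne h)

lemma supp_prod {k : ℕ} {F : Fin k → ArithmeticFunction ℂ} {X : Fin k → ℕ} (hF : ∀ i, ∀ n, F i n ≠ 0 → n ≤ X i) :
    ∀ n, (∏ i, F i) n ≠ 0 → n ≤ ∏ i, X i := by
  induction k with
  | zero =>
    intro n hn
    rw [Fin.prod_univ_zero] at hn ⊢
    exact (one_supp n hn).le
  | succ k ih =>
    rw [Fin.prod_univ_succ, Fin.prod_univ_succ]
    exact supp_mul (hF 0) (ih fun i => hF i.succ)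

lemma low_prod {k : ℕ} {F : Fin k → ArithmeticFunction ℂ} {a : Fin k → ℝ} (ha : ∀ i, 0 ≤ a i)
    (hF : ∀ i, ∀ n : ℕ, F i n ≠ 0 → a i ≤ n) : ∀ n : ℕ, (∏ i, F i) n ≠ 0 → ∏ i, a i ≤ n := by
  induction k with
  | zero =>
    intro n hn
    rw [Fin.prod_univ_zero] at hn ⊢
    rw [one_supp n hn]
    simp
  | succ k ih =>
    rw [Fin.prod_univ_succ, Fin.prod_univ_succ]
    exact low_mul (ha 0) (prod_nonneg fun i _ => ha i.succ) (hF 0) (ih (fun i => ha i.succ) fun i => hF i.succ)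

lemma DD_prod {h : ℕ → ℂ} (hh : ∀ m n, 1 ≤ m → 1 ≤ n → h (m * n) = h m * h n) (h1 : h 1 = 1) {k : ℕ}
    {F : Fin k → ArithmeticFunction ℂ} {X : Fin k → ℕ} (hF : ∀ i, ∀ n, F i n ≠ 0 → n ≤ X i) :
    ∏ i, DD h (F i) (X i) = DD h (∏ i, F i) (∏ i, X i) := by
  induction k with
  | zero =>
    rw [Fin.prod_univ_zero, Fin.prod_univ_zero, Fin.prod_univ_zero]
    simp [DD, h1]
  | succ k ih =>
    rw [Fin.prod_univ_succ, Fin.prod_univ_succ, Fin.prod_univ_succ, ih fun i => hF i.succ]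
    exact DD_mul hh (hF 0) (supp_prod fun i => hF i.succ)

lemma abs_prod_le {k : ℕ} {F : Fin k → ArithmeticFunction ℂ} {X : Fin k → ℕ} (hF : ∀ i, ∀ n, F i n ≠ 0 → n ≤ X i)
    (h1 : ∀ i n, ‖F i n‖ ≤ 1) : ∑ n ∈ Icc 1 (∏ i, X i), ‖(∏ i, F i) n‖ ≤ ∏ i, (X i : ℝ) := by
  induction k with
  | zero =>
    rw [Fin.prod_univ_zero, Fin.prod_univ_zero, Fin.prod_univ_zero]
    simp
  | succ k ih =>
    rw [Fin.prod_univ_succ, Fin.prod_univ_succ, Fin.prod_univ_succ]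
    refine (abs_mul_le (hF 0) (supp_prod fun i => hF i.succ)).trans ?_
    refine mul_le_mul ?_ (ih (fun i => hF i.succ) fun i => h1 i.succ) (sum_nonneg fun _ _ => norm_nonneg _)
      (Nat.cast_nonneg _)
    refine (sum_le_sum fun n _ => h1 0 n).trans (le_of_eq ?_)
    simp

end Pool.Agent.Helper88.WS
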