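import Pool.Agent.Helper88.WS.HBJ
import Pool.Agent.Helper88.WS.DP

/-!
# Boxes, part A: the decomposition of `μ` into products of dyadic pieces

Smooth partition: `sS u = 1` for `u ≤ 1`, `= 0` for `u ≥ 2`, `sP u = sS u - sS (2 u)`, supported in `[1/2, 2]`;
`∑_{e < E} sP (n/2^e) = 1` for `1 ≤ n ≤ 2^(E-1)`.
-/

set_option autoImplicit false

namespace Pool.Agent.Helper88.WS

open Finset Pool.Helper19.V4

/-- `1` on `u ≤ 1`, `0` on `u ≥ 2` -/
noncomputable def sS (u : ℝ) : ℝ := Real.smoothTransition (2 - u)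

/-- the partition function, supported in `[1/2, 2]` -/
noncomputable def sP (u : ℝ) : ℝ := sS u - sS (2 * u)

lemma sS_one {u : ℝ} (h : u ≤ 1) : sS u = 1 := Real.smoothTransition.one_of_one_le (by linarith)

lemma sS_zero {u : ℝ} (h : 2 ≤ u) : sS u = 0 := Real.smoothTransition.zero_of_nonpos (by linarith)

lemma sS_nonneg (u : ℝ) : 0 ≤ sS u := Real.smoothTransition.nonneg _

lemma sS_le_one (u : ℝ) : sS u ≤ 1 := Real.smoothTransition.le_one _

lemma sP_supp {u : ℝ} (h : sP u ≠ 0) : 1 / 2 ≤ u ∧ u ≤ 2 := by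
  constructor
  · by_contra h1
    push Not at h1
    apply h
    unfold sP
    rw [sS_one (by linarith), sS_one (by linarith), sub_self]
  · by_contra h1
    push Not at h1
    apply h
    unfold sP
    rw [sS_zero (by linarith), sS_zero (by linarith), sub_self]

lemma abs_sP_le (u : ℝ) : |sP u| ≤ 1 := by
  unfold sP
  rw [abs_le]
  have h1 := sS_nonneg u
  have h2 := sS_le_one u
  have h3 := sS_nonneg (2 * u)
  have h4 := sS_le_one (2 * u)
  constructor <;> linarith

lemma sP_sum (E : ℕ) (x : ℝ) : ∑ e ∈ range (E + 1), sP (x / 2 ^ e) = sS (x / 2 ^ E) - sS (2 * x) := by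
  induction E with
  | zero => simp [sP]
  | succ E ih =>
    rw [sum_range_succ, ih, sP]
    have : 2 * (x / 2 ^ (E + 1)) = x / 2 ^ E := by
      rw [pow_succ]
      field_simp
    rw [this]
    ring

lemma sP_sum_one {E n : ℕ} (hn : 1 ≤ n) (h : n ≤ 2 ^ E) : ∑ e ∈ range (E + 1), sP ((n : ℝ) / 2 ^ e) = 1 := by
  have h1 : (1 : ℝ) ≤ n := by exact_mod_cast hn
  rw [sP_sum, sS_one, sS_zero, sub_zero]
  · linarith
  · rw [div_le_one (by positivity)]
    exact_mod_cast h

/-- the pieces: `b = false` dyadic pieces of `μ_z`, `b = true` smooth pieces of `1` -/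
noncomputable def pc (z : ℕ) (b : Bool) (e : ℕ) : ArithmeticFunction ℂ :=
  ⟨fun n => if b then ((sP ((n : ℝ) / 2 ^ e) : ℝ) : ℂ) else
    (if 2 ^ e ≤ n ∧ n < 2 ^ (e + 1) ∧ n ≤ z then ((ArithmeticFunction.moebius n : ℤ) : ℂ) else 0), by
    cases b
    · simp
    · simp only [if_true, Nat.cast_zero, zero_div, Complex.ofReal_eq_zero]
      unfold sP
      rw [mul_zero, sub_self]⟩

lemma pc_true (z e n : ℕ) : pc z true e n = ((sP ((n : ℝ) / 2 ^ e) : ℝ) : ℂ) := rfl

lemma pc_false (z e n : ℕ) : pc z false e n =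
    if 2 ^ e ≤ n ∧ n < 2 ^ (e + 1) ∧ n ≤ z then ((ArithmeticFunction.moebius n : ℤ) : ℂ) else 0 := rfl

lemma norm_pc_le (z : ℕ) (b : Bool) (e n : ℕ) : ‖pc z b e n‖ ≤ 1 := by
  cases b
  · rw [pc_false]
    split_ifs
    · rw [Complex.norm_intCast]
      exact_mod_cast ArithmeticFunction.abs_moebius_le_one
    · simp
  · rw [pc_true, Complex.norm_real, Real.norm_eq_abs]
    exact abs_sP_le _

lemma pc_supp {z : ℕ} {b : Bool} {e n : ℕ} (h : pc z b e n ≠ 0) : n ≤ 2 ^ (e + 1) := by
  cases b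
  · rw [pc_false] at h
    by_contra h1
    exact h (if_neg (by omega))
  · rw [pc_true] at h
    have h1 := (sP_supp (fun h0 => h (by rw [h0]; simp))).2
    rw [div_le_iff₀ (by positivity)] at h1
    have h2 : (n : ℝ) ≤ ((2 ^ (e + 1) : ℕ) : ℝ) := by
      push_cast
      rw [pow_succ]
      linarith
    exact_mod_cast h2

lemma pc_low {z : ℕ} {b : Bool} {e n : ℕ} (h : pc z b e n ≠ 0) : (2 : ℝ) ^ e / 2 ≤ n := by
  cases b
  · rw [pc_false] at h
    have h1 : 2 ^ e ≤ n := by
      by_contra h1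
      exact h (if_neg (by omega))
    have h2 : (2 : ℝ) ^ e ≤ n := by exact_mod_cast h1
    have h3 : (0 : ℝ) < 2 ^ e := by positivity
    linarith
  · rw [pc_true] at h
    have h1 := (sP_supp (fun h0 => h (by rw [h0]; simp))).1
    rw [le_div_iff₀ (by positivity)] at h1
    linarith

private noncomputable def ev88 (n : ℕ) : ArithmeticFunction ℂ →+ ℂ :=
  { toFun := fun f => f n
    map_zero' := rfl
    map_add' := fun _ _ => rfl }

lemma af_sum {ι : Type*} (s : Finset ι) (f : ι → ArithmeticFunction ℂ) (n : ℕ) :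
    (∑ i ∈ s, f i) n = ∑ i ∈ s, f i n := map_sum (ev88 n) f s

/-- the full function of each type -/
noncomputable def fullf (z : ℕ) (b : Bool) : ArithmeticFunction ℂ :=
  if b then (ArithmeticFunction.zeta : ArithmeticFunction ℂ) else muz z

lemma pc_sum {z E : ℕ} (b : Bool) {n : ℕ} (h : n ≤ 2 ^ E) :
    (∑ e ∈ range (E + 1), pc z b e) n = fullf z b n := by
  rcases Nat.eq_zero_or_pos n with h0 | hn
  · rw [h0, ArithmeticFunction.map_zero, ArithmeticFunction.map_zero]
  rw [af_sum]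
  cases b
  · have h1 : fullf z false n = if n ≤ z then ((ArithmeticFunction.moebius n : ℤ) : ℂ) else 0 := rfl
    rw [h1]
    have h2 : ∀ e ∈ range (E + 1), pc z false e n =
        if e = Nat.log 2 n then (if n ≤ z then ((ArithmeticFunction.moebius n : ℤ) : ℂ) else 0) else 0 := by
      intro e _
      rw [pc_false]
      have h3 : (2 ^ e ≤ n ∧ n < 2 ^ (e + 1)) ↔ e = Nat.log 2 n := by
        constructor
        · intro h
          exact (Nat.log_eq_of_pow_le_of_lt_pow h.1 h.2).symm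
        · intro h
          rw [h]
          exact ⟨Nat.pow_log_le_self 2 (by omega), Nat.lt_pow_succ_log_self (by norm_num) n⟩
      by_cases h4 : e = Nat.log 2 n
      · rw [if_pos h4]
        have h5 := h3.2 h4
        by_cases h6 : n ≤ z
        · rw [if_pos ⟨h5.1, h5.2, h6⟩, if_pos h6]
        · rw [if_neg (fun h => h6 h.2.2), if_neg h6]
      · rw [if_neg h4, if_neg]
        intro h
        exact h4 (h3.1 ⟨h.1, h.2.1⟩)
    rw [sum_congr rfl h2, Finset.sum_ite_eq']
    rw [if_pos]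
    rw [mem_range]
    have := Nat.log_mono_right (b := 2) h
    rw [Nat.log_pow (by norm_num)] at this
    omega
  · have h1 : fullf z true n = 1 := by
      unfold fullf
      rw [if_pos rfl, ArithmeticFunction.natCoe_apply, ArithmeticFunction.zeta_apply, if_neg (by omega)]
      simp
    rw [h1]
    have h2 := sP_sum_one hn h
    calc ∑ e ∈ range (E + 1), pc z true e n = ((∑ e ∈ range (E + 1), sP ((n : ℝ) / 2 ^ e) : ℝ) : ℂ) := by
          push_cast
          rfl
      _ = 1 := by rw [h2]; simp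

lemma mul_congr88 {N : ℕ} {f f' g g' : ArithmeticFunction ℂ} (hf : ∀ n ≤ N, f n = f' n)
    (hg : ∀ n ≤ N, g n = g' n) : ∀ n ≤ N, (f * g) n = (f' * g') n := by
  intro n hn
  rw [ArithmeticFunction.mul_apply, ArithmeticFunction.mul_apply]
  refine Finset.sum_congr rfl fun p hp => ?_
  have hp' := Nat.mem_divisorsAntidiagonal.mp hp
  have h1 : p.1 ≤ n := Nat.le_of_dvd (Nat.pos_of_ne_zero hp'.2) ⟨p.2, hp'.1.symm⟩
  have h2 : p.2 ≤ n := Nat.le_of_dvd (Nat.pos_of_ne_zero hp'.2) ⟨p.1, by rw [mul_comm]; exact hp'.1.symm⟩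
  rw [hf _ (h1.trans hn), hg _ (h2.trans hn)]

lemma prod_congr88 {N k : ℕ} {f g : Fin k → ArithmeticFunction ℂ} (h : ∀ i, ∀ n ≤ N, f i n = g i n) :
    ∀ n ≤ N, (∏ i, f i) n = (∏ i, g i) n := by
  induction k with
  | zero => intro n _; simp
  | succ k ih =>
    rw [Fin.prod_univ_succ, Fin.prod_univ_succ]
    exact mul_congr88 (h 0) (ih fun i => h i.succ)

/-- the types of the factors: the first `j` are of type `false` -/
def ty (j k : ℕ) (i : Fin (j + k)) : Bool := decide (j ≤ i.val)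

lemma prod_ty {R : Type*} [CommMonoid R] (A : Bool → R) (j k : ℕ) :
    ∏ i : Fin (j + k), A (ty j k i) = A false ^ j * A true ^ k := by
  rw [Fin.prod_univ_add]
  congr 1
  · rw [prod_congr rfl (g := fun _ => A false)]
    · simp
    · intro i _
      congr 1
      simp only [ty, Fin.val_castAdd, decide_eq_false_iff_not]
      have := i.isLt
      omega
  · rw [prod_congr rfl (g := fun _ => A true)]
    · simp
    · intro i _
      congr 1
      simp only [ty, Fin.val_natAdd, decide_eq_true_eq]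
      omega

/-- **The decomposition of `μ` into boxes.** -/
theorem mu_boxes {z J E : ℕ} (hJ : 1 ≤ J) {n : ℕ} (hn : 1 ≤ n) (hz : n ≤ z ^ J) (hE : n ≤ 2 ^ E) :
    ((ArithmeticFunction.moebius n : ℤ) : ℂ) =
      ∑ j ∈ Icc 1 J, (-1 : ℂ) ^ (j - 1) * (Nat.choose J j : ℂ) *
        ∑ e ∈ Fintype.piFinset (fun _ : Fin (j + (j - 1)) => range (E + 1)),
          (∏ i, pc z (ty j (j - 1) i) (e i)) n := by
  rw [heath_brownJ hn hJ hz]
  refine sum_congr rfl fun j _ => ?_
  congr 1
  have h1 : (muz z ^ j * (ArithmeticFunction.zeta : ArithmeticFunction ℂ) ^ (j - 1)) =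
      ∏ i : Fin (j + (j - 1)), fullf z (ty j (j - 1) i) := by
    rw [prod_ty (fullf z) j (j - 1)]
    rfl
  rw [h1]
  have h2 := prod_congr88 (N := 2 ^ E) (f := fun i : Fin (j + (j - 1)) => fullf z (ty j (j - 1) i))
    (g := fun i => ∑ e ∈ range (E + 1), pc z (ty j (j - 1) i) e) (fun i m hm => (pc_sum _ hm).symm) n hE
  rw [h2, Finset.prod_univ_sum, af_sum]

end Pool.Agent.Helper88.WS
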