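import Pool.Agent.Helper19.V4.Defs

/-!
# The identity of Heath-Brown, general `J`

For `1 ≤ n ≤ z^J`: `μ(n) = ∑_{j=1}^J (-1)^(j-1) C(J,j) (μ_z^j * ζ^(j-1))(n)`.
-/

set_option autoImplicit false

namespace Pool.Agent.Helper88.WS

open ArithmeticFunction Finset Pool.Helper19.V4
open scoped ArithmeticFunction.zeta

private theorem van_mul88 {f g : ArithmeticFunction ℂ} {A B : ℕ} (hf : ∀ n, n < A → f n = 0)
    (hg : ∀ n, n < B → g n = 0) : ∀ n, n < A * B → (f * g) n = 0 := by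
  intro n hn
  rw [ArithmeticFunction.mul_apply]
  refine Finset.sum_eq_zero fun p hp => ?_
  have hp' := Nat.mem_divisorsAntidiagonal.mp hp
  by_cases h1 : p.1 < A
  · rw [hf _ h1, zero_mul]
  · by_cases h2 : p.2 < B
    · rw [hg _ h2, mul_zero]
    · exfalso
      have := Nat.mul_le_mul (not_lt.mp h1) (not_lt.mp h2)
      rw [hp'.1] at this
      omega

private theorem van_pow88 {g : ArithmeticFunction ℂ} {A : ℕ} (hA : 1 ≤ A) (hg : ∀ n, n < A → g n = 0) (J : ℕ) :
    ∀ n, n < A ^ J → (g ^ J) n = 0 := by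
  induction J with
  | zero =>
    intro n hn
    have : n = 0 := by simpa using hn
    rw [this]
    exact (g ^ 0).map_zero
  | succ J ih =>
    rw [pow_succ, pow_succ]
    exact van_mul88 ih hg

private theorem van_g88 (z : ℕ) : ∀ n, n < z + 1 →
    ((1 : ArithmeticFunction ℂ) - muz z * (ArithmeticFunction.zeta : ArithmeticFunction ℂ)) n = 0 := by
  intro n hn
  have h1 : (muz z * (ArithmeticFunction.zeta : ArithmeticFunction ℂ)) n =
      (((ArithmeticFunction.moebius : ArithmeticFunction ℤ) : ArithmeticFunction ℂ) *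
        (ArithmeticFunction.zeta : ArithmeticFunction ℂ)) n := by
    rw [ArithmeticFunction.mul_apply, ArithmeticFunction.mul_apply]
    refine Finset.sum_congr rfl fun p hp => ?_
    have hp' := Nat.mem_divisorsAntidiagonal.mp hp
    have h2 : p.1 ≤ n := Nat.le_of_dvd (Nat.pos_of_ne_zero hp'.2) ⟨p.2, hp'.1.symm⟩
    congr 1
    change (if p.1 ≤ z then ((ArithmeticFunction.moebius p.1 : ℤ) : ℂ) else 0) =
      ((ArithmeticFunction.moebius p.1 : ℤ) : ℂ)
    rw [if_pos (by omega)]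
  have h2 : ((1 : ArithmeticFunction ℂ) -
      muz z * (ArithmeticFunction.zeta : ArithmeticFunction ℂ)) n =
      (1 : ArithmeticFunction ℂ) n -
        (muz z * (ArithmeticFunction.zeta : ArithmeticFunction ℂ)) n := rfl
  rw [h2, h1, ArithmeticFunction.coe_moebius_mul_coe_zeta, sub_self]

/-- the algebraic identity -/
private theorem alg88 {R : Type*} [CommRing R] (m Z M : R) (h : M * Z = 1) (J : ℕ) :
    (1 - m * Z) ^ J * M = M - ∑ j ∈ Icc 1 J, (-1) ^ (j - 1) * (Nat.choose J j : R) * (m ^ j * Z ^ (j - 1)) := by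
  have h1 : (1 - m * Z) ^ J = ∑ j ∈ range (J + 1), (-(m * Z)) ^ j * (Nat.choose J j : R) := by
    have := add_pow (-(m * Z)) 1 J
    rw [show -(m * Z) + 1 = 1 - m * Z by ring] at this
    rw [this]
    refine sum_congr rfl fun j _ => ?_
    rw [one_pow, mul_one]
  rw [h1, range_eq_Ico, ← Finset.sum_Ioo_add_eq_sum_Ico (by omega : 0 < J + 1)]
  rw [pow_zero, Nat.choose_zero_right, Nat.cast_one, mul_one, add_mul, one_mul, add_comm, sub_eq_add_neg]
  congr 1
  rw [sum_mul, ← sum_neg_distrib]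
  have hI : Ioo 0 (J + 1) = Icc 1 J := by
    ext j
    simp only [mem_Ioo, mem_Icc]
    omega
  rw [hI]
  refine sum_congr rfl fun j hj => ?_
  rw [mem_Icc] at hj
  obtain ⟨i, rfl⟩ : ∃ i, j = i + 1 := ⟨j - 1, by omega⟩
  rw [Nat.add_sub_cancel, neg_pow, mul_pow]
  rw [pow_succ (-1 : R) i]
  have e1 : m ^ (i + 1) * Z ^ (i + 1) * M = m ^ (i + 1) * Z ^ i := by
    rw [pow_succ Z i]
    linear_combination (m ^ (i + 1) * Z ^ i) * h
  linear_combination (-((-1 : R) ^ i * (Nat.choose J (i + 1) : R))) * e1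

theorem heath_brownJ {z n J : ℕ} (hn : 1 ≤ n) (hJ : 1 ≤ J) (h : n ≤ z ^ J) :
    ((ArithmeticFunction.moebius n : ℤ) : ℂ) =
      ∑ j ∈ Icc 1 J, (-1 : ℂ) ^ (j - 1) * (Nat.choose J j : ℂ) *
        (muz z ^ j * (ArithmeticFunction.zeta : ArithmeticFunction ℂ) ^ (j - 1)) n := by
  obtain ⟨M, hM⟩ : ∃ M : ArithmeticFunction ℂ,
    M = ((ArithmeticFunction.moebius : ArithmeticFunction ℤ) : ArithmeticFunction ℂ) := ⟨_, rfl⟩
  obtain ⟨Z, hZ⟩ : ∃ Z : ArithmeticFunction ℂ, Z = (ArithmeticFunction.zeta : ArithmeticFunction ℂ) := ⟨_, rfl⟩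
  obtain ⟨m, hm⟩ : ∃ m : ArithmeticFunction ℂ, m = muz z := ⟨_, rfl⟩
  have hMZ : M * Z = 1 := by rw [hM, hZ]; exact ArithmeticFunction.coe_moebius_mul_coe_zeta
  have v1 : ∀ k, k < z + 1 → (1 - m * Z) k = 0 := by rw [hm, hZ]; exact van_g88 z
  have v2 := van_pow88 (by omega) v1 J
  have v3 := van_mul88 (f := (1 - m * Z) ^ J) (g := M) (A := (z + 1) ^ J) (B := 1) v2 (by
      intro k hk
      have : k = 0 := by omega
      rw [this]
      exact M.map_zero)
  have hlt : n < (z + 1) ^ J * 1 := by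
    have h1 : z ^ J < (z + 1) ^ J := Nat.pow_lt_pow_left (by omega) (by omega)
    omega
  have h0 := v3 n hlt
  let ev : ArithmeticFunction ℂ →+ ℂ :=
    { toFun := fun f => f n
      map_zero' := rfl
      map_add' := fun _ _ => rfl }
  have h1 : ev ((1 - m * Z) ^ J * M) = 0 := h0
  rw [alg88 m Z M hMZ J, map_sub, map_sum, sub_eq_zero] at h1
  have e1 : ev M = ((ArithmeticFunction.moebius n : ℤ) : ℂ) := by rw [hM]; rfl
  rw [← e1, h1, ← hZ, ← hm]
  refine sum_congr rfl fun j _ => ?_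
  have e2 : (-1 : ArithmeticFunction ℂ) ^ (j - 1) * (Nat.choose J j : ArithmeticFunction ℂ) *
      (m ^ j * Z ^ (j - 1)) = ((-1 : ℤ) ^ (j - 1) * (Nat.choose J j : ℤ)) • (m ^ j * Z ^ (j - 1)) := by
    rw [zsmul_eq_mul]
    push_cast
    ring
  rw [e2, map_zsmul, zsmul_eq_mul]
  push_cast
  rfl

end Pool.Agent.Helper88.WS
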